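import Pool.Agent.H23.GB.Targets
import Pool.Agent.H24.GW.MA

/-!
# CS: vanishing character sums and fourth moments
-/

set_option autoImplicit false

open Finset
open scoped Classical

namespace Pool.Agent.H33.GB.CS

open Pool.Agent.H23.GW Pool.Agent.H23.GB Pool.Agent.H24.GW

/-- weighted Cauchy-Schwarz inequality for a group action -/
theorem combw {Γ X : Type} [Group Γ] [Fintype Γ] [Fintype X] [MulAction Γ X] (w : X → ℝ)
    (R : Finset X) (h : ∀ x, x ∉ R → ∀ t : Γ, w (t • x) = 0) :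
    (Fintype.card Γ : ℝ) * (∑ x, w x) ^ 2 ≤ #R * ∑ t : Γ, ∑ x, w x * w (t • x) := by
  set a : X → ℝ := fun x => ∑ t : Γ, w (t • x) with ha
  have hinv : ∀ (s : Γ) (x : X), a (s • x) = a x := by
    intro s x
    simp only [ha, smul_smul]
    exact Equiv.sum_comp (Equiv.mulRight s : Equiv.Perm Γ) (fun t => w (t • x))
  have hsm : ∀ (t : Γ) (F : X → ℝ), ∑ x, F (t • x) = ∑ x, F x := by
    intro t F
    exact Equiv.sum_comp (MulAction.toPerm t : Equiv.Perm X) F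
  have h1 : ∑ x : X, a x = (Fintype.card Γ : ℝ) * ∑ x, w x := by
    simp only [ha]
    rw [Finset.sum_comm, Finset.sum_congr rfl (fun t _ => hsm t w)]
    rw [Finset.sum_const, nsmul_eq_mul, Finset.card_univ]
  have h2 : ∑ x : X, a x = ∑ x ∈ R, a x := by
    symm
    apply Finset.sum_subset (Finset.subset_univ _)
    intro x _ hx
    exact Finset.sum_eq_zero fun t _ => h x hx t
  have h3 : (∑ x ∈ R, a x) ^ 2 ≤ #R * ∑ x ∈ R, a x ^ 2 := sq_sum_le_card_mul_sum_sq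
  have h4 : ∑ x ∈ R, a x ^ 2 ≤ ∑ x : X, a x ^ 2 :=
    Finset.sum_le_sum_of_subset_of_nonneg (Finset.subset_univ _) (fun _ _ _ => sq_nonneg _)
  have h5 : ∑ x : X, a x ^ 2 = (Fintype.card Γ : ℝ) * ∑ t : Γ, ∑ x, w x * w (t • x) := by
    have e1 : ∀ x : X, a x ^ 2 = ∑ t : Γ, w (t • x) * a (t • x) := by
      intro x
      simp only [hinv]
      rw [← Finset.sum_mul, sq]
    rw [Finset.sum_congr rfl (fun x _ => e1 x), Finset.sum_comm,
      Finset.sum_congr rfl (fun t _ => hsm t (fun x => w x * a x)), Finset.sum_const,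
      nsmul_eq_mul, Finset.card_univ]
    congr 1
    rw [Finset.sum_comm]
    refine Finset.sum_congr rfl fun x _ => ?_
    rw [ha, Finset.mul_sum]
  have h6 : ((Fintype.card Γ : ℝ) * ∑ x, w x) ^ 2 ≤
      #R * ((Fintype.card Γ : ℝ) * ∑ t : Γ, ∑ x, w x * w (t • x)) := by
    rw [← h1, h2, ← h5]
    exact h3.trans (mul_le_mul_of_nonneg_left h4 (Nat.cast_nonneg _))
  have h7 : (0 : ℝ) < Fintype.card Γ := by
    exact_mod_cast Fintype.card_pos
  have h8 : (Fintype.card Γ : ℝ) * ((Fintype.card Γ : ℝ) * (∑ x, w x) ^ 2) ≤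
      (Fintype.card Γ : ℝ) * (#R * ∑ t : Γ, ∑ x, w x * w (t • x)) := by
    nlinarith [h6]
  exact le_of_mul_le_mul_left h8 h7

theorem cs (hSU : T_SU) (hVZ : T_VZ) : T_CS := by
  intro G _ _ T m z hT hcardT hz0 hz1 hz Γ
  obtain ⟨-, hs2, hs4⟩ := hSU G T hT
  have hcard : (#T : ℝ) = 2 * m + 1 := by rw [hcardT]; push_cast; ring
  obtain ⟨N, hN⟩ : ∃ N : ℝ, N = (Fintype.card G : ℝ) := ⟨_, rfl⟩
  rw [← hN] at hs2 hs4 hz
  have hNpos : 0 < N := by
    rw [hN]
    exact_mod_cast Fintype.card_pos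
  have hcardX : (Fintype.card (AddChar G ℂ) : ℝ) = N := by
    rw [AddChar.card_eq, hN]
  have hNZ : NeZero (Fintype.card G) := ⟨Fintype.card_ne_zero⟩
  let _inst : MulAction Γ (AddChar G ℂ) := unitAct (fun χ => char_kill χ) Γ
  have hact : ∀ (t : Γ) (χ : AddChar G ℂ), t • χ =
      ((t : (ZMod (Fintype.card G))ˣ) : ZMod (Fintype.card G)).val • χ := fun _ _ => rfl
  set R : Finset (AddChar G ℂ) := {χ | V T χ ≠ 0} with hR
  have hcomb := combw (Γ := Γ) (fun χ : AddChar G ℂ => ‖V T χ‖ ^ 2) R (by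
    intro χ hχ t
    have h0 : V T χ = 0 := by
      by_contra h
      exact hχ (by simp only [hR, mem_filter, mem_univ, true_and]; exact h)
    have := hVZ G T χ _ (ZMod.val_coe_unit_coprime (t : (ZMod (Fintype.card G))ˣ)) h0
    rw [hact, this]
    simp)
  have hRc : (#R : ℝ) ≤ (1 - z) * N := by
    have h1 : #R + #{χ : AddChar G ℂ | V T χ = 0} = Fintype.card (AddChar G ℂ) := by
      rw [hR, ← Finset.card_univ, add_comm]
      exact Finset.card_filter_add_card_filter_not (s := (univ : Finset (AddChar G ℂ)))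
        (fun χ => V T χ = 0)
    have h2 : (#R : ℝ) + #{χ : AddChar G ℂ | V T χ = 0} = N := by
      rw [← hcardX]; exact_mod_cast h1
    linarith
  have hΓ : (Fintype.card Γ : ℝ) = Nat.card Γ := by rw [Nat.card_eq_fintype_card]
  have hsum : ∑ t : Γ, ∑ χ : AddChar G ℂ, ‖V T χ‖ ^ 2 * ‖V T (t • χ)‖ ^ 2 =
      N * ∑ t with t ∈ Γ, ∑ g, (r2 T g : ℝ) * r2 T ((t : ZMod (Fintype.card G)).val • g) := by
    have h1 : ∀ t : Γ, ∑ χ : AddChar G ℂ, ‖V T χ‖ ^ 2 * ‖V T (t • χ)‖ ^ 2 =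
        N * ∑ g, (r2 T g : ℝ) *
        r2 T (((t : (ZMod (Fintype.card G))ˣ) : ZMod (Fintype.card G)).val • g) := by
      intro t
      rw [← hs4]
      rfl
    rw [Finset.sum_congr rfl (fun t _ => h1 t), ← Finset.mul_sum]
    congr 1
    rw [← Finset.sum_subtype (Finset.univ.filter (fun t => t ∈ Γ))
      (p := fun t => t ∈ Γ) (by simp)
      (fun t : (ZMod (Fintype.card G))ˣ => ∑ g, (r2 T g : ℝ) *
        r2 T ((t : ZMod (Fintype.card G)).val • g))]
  rw [hsum, hs2, hcard, hΓ] at hcomb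
  set W : ℝ := ∑ t with t ∈ Γ, ∑ g, (r2 T g : ℝ) * r2 T ((t : ZMod (Fintype.card G)).val • g)
    with hW
  have hW0 : 0 ≤ W := Finset.sum_nonneg fun _ _ => Finset.sum_nonneg fun _ _ => by positivity
  have h1 : (Nat.card Γ : ℝ) * (N * (2 * m + 1)) ^ 2 ≤ (1 - z) * N * (N * W) :=
    hcomb.trans (mul_le_mul_of_nonneg_right hRc (by positivity))
  have h2 : N ^ 2 * ((Nat.card Γ : ℝ) * (2 * m + 1) ^ 2) ≤ N ^ 2 * ((1 - z) * W) := by
    nlinarith [h1]
  have h3 := le_of_mul_le_mul_left h2 (by positivity)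
  have h4 : (0 : ℝ) < 1 - z := by linarith
  have h5 : 1 / (1 - z) * (2 * (m : ℝ) + 1) ^ 2 * (Nat.card Γ : ℝ) =
      (Nat.card Γ : ℝ) * (2 * m + 1) ^ 2 / (1 - z) := by ring
  rw [h5, div_le_iff₀ h4]
  linarith

end Pool.Agent.H33.GB.CS
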