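import Pool.Agent.H23.GB.Targets
import Pool.Agent.H27.GW.GF

/-!
# FM: asymptotics of the numbers of formal relations
-/

set_option autoImplicit false

open Finset
open scoped Classical

namespace Pool.Agent.H33.GB.FM

open Pool.Agent.H23.GW Pool.Agent.H23.GB

noncomputable section

/-- the standard additive character modulo 13 -/
def ps : AddChar (ZMod 13) ℂ := ZMod.stdAddChar

theorem ps_sum (b : ZMod 13) : ∑ x : ZMod 13, ps (x * b) = if b = 0 then (13 : ℂ) else 0 := by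
  have h := AddChar.sum_mulShift b (ZMod.isPrimitive_stdAddChar 13)
  rw [ZMod.card] at h
  rw [ps, h]
  split_ifs <;> simp

theorem ps_mul_neg (t : ZMod 13) : ps t * ps (-t) = 1 := by
  rw [← AddChar.map_add_eq_mul, add_neg_cancel, AddChar.map_zero_eq_one]

/-- as a unit -/
def uu (t : ZMod 13) : ℂˣ := ⟨ps t, ps (-t), ps_mul_neg t, by rw [mul_comm, ps_mul_neg]⟩

theorem uu_zpow (t : ZMod 13) (c : ℤ) : ((uu t ^ c : ℂˣ) : ℂ) = ps (t * (c : ZMod 13)) := by
  rw [Units.val_zpow_eq_zpow_val]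
  change ps t ^ c = _
  rw [← AddChar.map_zsmul_eq_zpow, zsmul_eq_mul, mul_comm]

variable {m : ℕ}

/-- Laurent monomials -/
def mo (t : Fin m → ZMod 13) (c : Fin m → ℤ) : ℂ := ∏ i, ((uu (t i) ^ c i : ℂˣ) : ℂ)

theorem mo_zero (t : Fin m → ZMod 13) : mo t 0 = 1 := by
  simp [mo]

theorem mo_add (t : Fin m → ZMod 13) (c c' : Fin m → ℤ) : mo t (c + c') = mo t c * mo t c' := by
  rw [mo, mo, mo, ← prod_mul_distrib]
  refine prod_congr rfl fun i _ => ?_
  rw [Pi.add_apply, zpow_add, Units.val_mul]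

theorem mo_sum (t : Fin m → ZMod 13) {a : ℕ} (q : Fin a → Fin m → ℤ) :
    mo t (∑ i, q i) = ∏ i, mo t (q i) := by
  have : ∀ s : Finset (Fin a), mo t (∑ i ∈ s, q i) = ∏ i ∈ s, mo t (q i) := by
    intro s
    induction s using Finset.induction_on with
    | empty => simp [mo_zero]
    | insert j s hj ih => rw [sum_insert hj, prod_insert hj, mo_add, ih]
  exact this univ

/-- cosine sums -/
def ff (s : ZMod 13) : ℂ := ps s + ps (-s)
def hh (s : ZMod 13) : ℂ := ff s ^ 3 - 3 * ff s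

theorem hh_eq (s : ZMod 13) : hh s = ps (3 * s) + ps (-(3 * s)) := by
  have h1 : (3 : ZMod 13) * s = s + s + s := by ring
  have h2 : -((3 : ZMod 13) * s) = -s + -s + -s := by ring
  rw [h1, neg_add, neg_add, AddChar.map_add_eq_mul, AddChar.map_add_eq_mul,
    AddChar.map_add_eq_mul, AddChar.map_add_eq_mul, hh, ff]
  have h3 := ps_mul_neg s
  linear_combination (3 * ps s + 3 * ps (-s)) * h3

/-- sum over the ball -/
theorem sum_ball (t : Fin m → ZMod 13) : ∑ c ∈ ball (Fin m) 1, mo t c = 1 + ∑ i, ff (t i) := by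
  have h := Pool.Agent.H27.GW.gf (Fin m) ℂ (fun i => uu (t i)) 1
  have h0 : ball (Fin m) 0 = {0} := by
    ext c
    simp only [ball, mem_filter, Fintype.mem_piFinset, mem_Icc, mem_singleton]
    constructor
    · rintro ⟨h1, -⟩
      funext i
      have := h1 i
      simp only [Nat.cast_zero, neg_zero] at this
      exact le_antisymm this.2 this.1
    · rintro rfl
      simp
  simp only [Icc_self, sum_singleton, Nat.cast_one, one_mul, pow_one, Nat.sub_self, h0,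
    Nat.not_even_one, if_false, sub_zero, Pi.zero_apply, zpow_zero, Units.val_one, prod_const_one,
    mul_one] at h
  exact h

theorem sum_ball3 (t : Fin m → ZMod 13) :
    ∑ c ∈ ball (Fin m) 1, mo t (3 • c) = 1 + ∑ i, hh (t i) := by
  have h := sum_ball (fun i => 3 * t i)
  have h1 : ∀ c : Fin m → ℤ, mo (fun i => 3 * t i) c = mo t (3 • c) := by
    intro c
    rw [mo, mo]
    refine prod_congr rfl fun i _ => ?_
    rw [uu_zpow, uu_zpow]
    congr 1
    rw [Pi.smul_apply]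
    simp only [nsmul_eq_mul]
    push_cast
    ring
  rw [← sum_congr rfl fun c _ => h1 c, h]
  congr 1
  refine sum_congr rfl fun i _ => ?_
  rw [hh_eq, ff]

theorem mo_orth (c : Fin m → ℤ) (hc : ∀ i, |c i| ≤ 12) :
    ∑ t : Fin m → ZMod 13, mo t c = if c = 0 then (13 : ℂ) ^ m else 0 := by
  have h1 : ∑ t : Fin m → ZMod 13, mo t c = ∏ i, ∑ s : ZMod 13, ps (s * (c i : ZMod 13)) := by
    rw [prod_univ_sum, Fintype.piFinset_univ]
    refine sum_congr rfl fun t _ => ?_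
    rw [mo]
    refine prod_congr rfl fun i _ => ?_
    rw [uu_zpow]
  rw [h1]
  simp only [ps_sum]
  by_cases h : c = 0
  · rw [if_pos h, h]
    simp
  · rw [if_neg h]
    obtain ⟨i, hi⟩ := Function.ne_iff.1 h
    apply prod_eq_zero (mem_univ i)
    rw [if_neg]
    intro h2
    rw [ZMod.intCast_zmod_eq_zero_iff_dvd] at h2
    have h3 := hc i
    have h4 : c i ≠ 0 := hi
    obtain ⟨k, hk⟩ := h2
    rw [abs_le] at h3
    push_cast at hk
    omega

/-- the moments -/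
def PP (m a b : ℕ) : ℂ :=
  (∑ t : Fin m → ZMod 13, (1 + ∑ i, ff (t i)) ^ a * (1 + ∑ i, hh (t i)) ^ b) / 13 ^ m

theorem mem_ball_abs {c : Fin m → ℤ} (hc : c ∈ ball (Fin m) 1) (i : Fin m) : |c i| ≤ 1 := by
  simp only [ball, mem_filter] at hc
  have h1 : |c i| ≤ ∑ i, |c i| :=
    single_le_sum (f := fun i => |c i|) (fun j _ => abs_nonneg _) (mem_univ i)
  exact h1.trans (by simpa using hc.2)

theorem PP_eq (m a b : ℕ) (hab : a + 3 * b ≤ 12) :
    PP m a b = (RW (ball (Fin m) 1) a b : ℂ) := by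
  have h1 : ∀ t : Fin m → ZMod 13, (1 + ∑ i, ff (t i)) ^ a * (1 + ∑ i, hh (t i)) ^ b =
      ∑ q ∈ (Fintype.piFinset fun _ : Fin a => ball (Fin m) 1) ×ˢ
        (Fintype.piFinset fun _ : Fin b => ball (Fin m) 1),
          mo t (∑ i, q.1 i + 3 • ∑ j, q.2 j) := by
    intro t
    rw [← sum_ball, ← sum_ball3, ← Fin.prod_const, ← Fin.prod_const, prod_univ_sum,
      prod_univ_sum, sum_mul_sum, ← sum_product']
    refine sum_congr rfl fun q _ => ?_
    rw [mo_add, mo_sum, smul_sum, mo_sum]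
  rw [PP, sum_congr rfl fun t _ => h1 t, sum_comm]
  have h2 : ∀ q ∈ (Fintype.piFinset fun _ : Fin a => ball (Fin m) 1) ×ˢ
        (Fintype.piFinset fun _ : Fin b => ball (Fin m) 1),
      ∑ t : Fin m → ZMod 13, mo t (∑ i, q.1 i + 3 • ∑ j, q.2 j) =
        if ∑ i, q.1 i + 3 • ∑ j, q.2 j = 0 then (13 : ℂ) ^ m else 0 := by
    intro q hq
    rw [mem_product, Fintype.mem_piFinset, Fintype.mem_piFinset] at hq
    apply mo_orth
    intro i
    have e1 : |∑ j, q.1 j i| ≤ a := by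
      refine (abs_sum_le_sum_abs _ _).trans ?_
      refine (sum_le_sum fun j _ => mem_ball_abs (hq.1 j) i).trans ?_
      simp
    have e2 : |∑ j, q.2 j i| ≤ b := by
      refine (abs_sum_le_sum_abs _ _).trans ?_
      refine (sum_le_sum fun j _ => mem_ball_abs (hq.2 j) i).trans ?_
      simp
    have e3 : (∑ i, q.1 i + 3 • ∑ j, q.2 j) i = ∑ j, q.1 j i + 3 * ∑ j, q.2 j i := by
      rw [Pi.add_apply, Pi.smul_apply, Finset.sum_apply, Finset.sum_apply]
      simp
    rw [e3]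
    have e4 : (a : ℤ) + 3 * b ≤ 12 := by exact_mod_cast hab
    rw [abs_le] at e1 e2 ⊢
    constructor <;> linarith [e1.1, e1.2, e2.1, e2.2]
  rw [sum_congr rfl h2, ← sum_filter, sum_const, nsmul_eq_mul, RW]
  have : (13 : ℂ) ^ m ≠ 0 := pow_ne_zero _ (by norm_num)
  rw [mul_div_assoc, div_self this, mul_one]
  congr

/-- one-variable moments -/
def ka (i j : ℕ) : ℂ := (∑ s : ZMod 13, ff s ^ i * hh s ^ j) / 13

theorem PP_succ (m a b : ℕ) : PP (m + 1) a b = ∑ i ∈ range (a + 1), ∑ j ∈ range (b + 1),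
    (a.choose i : ℂ) * b.choose j * ka i j * PP m (a - i) (b - j) := by
  have h1 : ∑ t : Fin (m + 1) → ZMod 13, (1 + ∑ i, ff (t i)) ^ a * (1 + ∑ i, hh (t i)) ^ b =
      ∑ s : ZMod 13, ∑ t : Fin m → ZMod 13, (ff s + (1 + ∑ i, ff (t i))) ^ a *
        (hh s + (1 + ∑ i, hh (t i))) ^ b := by
    rw [← Fintype.sum_prod_type']
    symm
    refine Fintype.sum_equiv (Fin.consEquiv fun _ => ZMod 13) _ _ ?_
    rintro ⟨s, t⟩
    rw [Fin.sum_univ_succ, Fin.sum_univ_succ]
    simp only [Fin.consEquiv_apply, Fin.cons_zero, Fin.cons_succ]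
    congr 2 <;> ring
  have h2 : ∀ (s : ZMod 13) (t : Fin m → ZMod 13), (ff s + (1 + ∑ i, ff (t i))) ^ a *
        (hh s + (1 + ∑ i, hh (t i))) ^ b =
      ∑ i ∈ range (a + 1), ∑ j ∈ range (b + 1), (a.choose i : ℂ) * b.choose j *
        (ff s ^ i * hh s ^ j) * ((1 + ∑ i, ff (t i)) ^ (a - i) *
          (1 + ∑ i, hh (t i)) ^ (b - j)) := by
    intro s t
    rw [add_pow, add_pow, sum_mul_sum]
    refine sum_congr rfl fun i _ => sum_congr rfl fun j _ => ?_
    ring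
  rw [PP, h1]
  simp only [h2]
  have h3 : ∑ s : ZMod 13, ∑ t : Fin m → ZMod 13, ∑ i ∈ range (a + 1), ∑ j ∈ range (b + 1),
      (a.choose i : ℂ) * b.choose j *
        (ff s ^ i * hh s ^ j) * ((1 + ∑ i, ff (t i)) ^ (a - i) *
          (1 + ∑ i, hh (t i)) ^ (b - j)) =
      ∑ i ∈ range (a + 1), ∑ j ∈ range (b + 1), (a.choose i : ℂ) * b.choose j *
        (∑ s : ZMod 13, ff s ^ i * hh s ^ j) *
        ∑ t : Fin m → ZMod 13, ((1 + ∑ i, ff (t i)) ^ (a - i) *
          (1 + ∑ i, hh (t i)) ^ (b - j)) := by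
    rw [sum_congr rfl fun s _ => sum_comm, sum_comm]
    refine sum_congr rfl fun i _ => ?_
    rw [sum_congr rfl fun s _ => sum_comm, sum_comm]
    refine sum_congr rfl fun j _ => ?_
    rw [mul_assoc, sum_mul_sum, mul_sum]
    refine sum_congr rfl fun s _ => ?_
    rw [mul_sum]
    refine sum_congr rfl fun t _ => ?_
    ring
  rw [h3, sum_div]
  refine sum_congr rfl fun i _ => ?_
  rw [sum_div]
  refine sum_congr rfl fun j _ => ?_
  rw [PP, ka, pow_succ]
  field_simp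

/-- pure moments -/
def en (n : ℕ) : ℕ := ∑ k ∈ range (n + 1), if (2 * k + 12 * n) % 13 = 0 then n.choose k else 0

theorem en_eq (n : ℕ) : (∑ s : ZMod 13, ff s ^ n) / 13 = (en n : ℂ) := by
  have h1 : ∀ s : ZMod 13, ff s ^ n =
      ∑ k ∈ range (n + 1), ps (s * ((2 * k + 12 * n : ℕ) : ZMod 13)) * n.choose k := by
    intro s
    rw [ff, add_pow]
    refine sum_congr rfl fun k hk => ?_
    have hk' : k ≤ n := by
      have := mem_range.1 hk
      omega
    congr 1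
    rw [← AddChar.map_nsmul_eq_pow, ← AddChar.map_nsmul_eq_pow, ← AddChar.map_add_eq_mul]
    congr 1
    have h13 : (13 : ZMod 13) = 0 := by decide
    rw [nsmul_eq_mul, nsmul_eq_mul, Nat.cast_sub hk']
    push_cast
    linear_combination (-(n : ZMod 13) * s) * h13
  simp only [h1]
  rw [sum_comm]
  have h2 : ∀ k : ℕ, ∑ s : ZMod 13, ps (s * ((2 * k + 12 * n : ℕ) : ZMod 13)) * (n.choose k : ℂ) =
      13 * ((if (2 * k + 12 * n) % 13 = 0 then n.choose k else 0 : ℕ) : ℂ) := by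
    intro k
    rw [← sum_mul, ps_sum]
    by_cases h : (2 * k + 12 * n) % 13 = 0
    · have h3 : ((2 * k + 12 * n : ℕ) : ZMod 13) = 0 :=
        (ZMod.natCast_eq_zero_iff _ _).2 (Nat.dvd_of_mod_eq_zero h)
      rw [if_pos h3, if_pos h]
    · have h3 : ((2 * k + 12 * n : ℕ) : ZMod 13) ≠ 0 := fun h4 =>
        h (Nat.mod_eq_zero_of_dvd ((ZMod.natCast_eq_zero_iff _ _).1 h4))
      rw [if_neg h3, if_neg h]
      simp
  rw [sum_congr rfl fun k _ => h2 k, ← mul_sum, en]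
  push_cast
  field_simp

theorem ka_zero (i : ℕ) : ka i 0 = en i := by
  rw [← en_eq, ka]
  simp

theorem ka_one (i : ℕ) : ka i 1 = en (i + 3) - 3 * en (i + 1) := by
  rw [← en_eq, ← en_eq, ka]
  have : ∀ s : ZMod 13, ff s ^ i * hh s ^ 1 = ff s ^ (i + 3) - 3 * ff s ^ (i + 1) := by
    intro s
    rw [hh]; ring
  simp only [this]
  rw [sum_sub_distrib, ← mul_sum]
  ring

theorem ka_two (i : ℕ) : ka i 2 = en (i + 6) - 6 * en (i + 4) + 9 * en (i + 2) := by
  rw [← en_eq, ← en_eq, ← en_eq, ka]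
  have : ∀ s : ZMod 13, ff s ^ i * hh s ^ 2 = ff s ^ (i + 6) - 6 * ff s ^ (i + 4) +
      9 * ff s ^ (i + 2) := by
    intro s
    rw [hh]; ring
  simp only [this]
  rw [sum_add_distrib, sum_sub_distrib, ← mul_sum, ← mul_sum]
  ring

theorem e0 : en 0 = 1 := by decide
theorem e1 : en 1 = 0 := by decide
theorem e2 : en 2 = 2 := by decide
theorem e3 : en 3 = 0 := by decide
theorem e4 : en 4 = 6 := by decide
theorem e5 : en 5 = 0 := by decide
theorem e6 : en 6 = 20 := by decide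
theorem e7 : en 7 = 0 := by decide
theorem e8 : en 8 = 70 := by decide
theorem e9 : en 9 = 0 := by decide
theorem e10 : en 10 = 252 := by decide
theorem e11 : en 11 = 0 := by decide
theorem e12 : en 12 = 924 := by decide

/-- the exact formulas -/
def Form (m : ℕ) : Prop :=
  PP m 0 0 = 1 ∧ PP m 2 0 = 1 + 2 * m ∧ PP m 4 0 = 1 + 6 * m + 12 * m ^ 2 ∧
  PP m 6 0 = 1 + 20 * m + 120 * m ^ 3 ∧ PP m 1 1 = 1 ∧ PP m 3 1 = 1 + 8 * m ∧
  PP m 0 2 = 1 + 2 * m ∧ PP m 2 2 = 1 + 4 * m + 4 * m ^ 2 ∧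
  PP m 4 2 = 1 + 24 * m + 24 * m ^ 2 + 24 * m ^ 3 ∧
  PP m 6 2 = 1 - 336 * m + 600 * m ^ 2 + 120 * m ^ 3 + 240 * m ^ 4

theorem c62 : (Nat.choose 6 2) = 15 := by decide
theorem c63 : (Nat.choose 6 3) = 20 := by decide
theorem c64 : (Nat.choose 6 4) = 15 := by decide
theorem c65 : (Nat.choose 6 5) = 6 := by decide
theorem c42 : (Nat.choose 4 2) = 6 := by decide
theorem c43 : (Nat.choose 4 3) = 4 := by decide
theorem c32 : (Nat.choose 3 2) = 3 := by decide

theorem form_zero : Form 0 := by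
  have h : ∀ a b, PP 0 a b = 1 := by
    intro a b
    simp [PP]
  simp only [Form, h]
  norm_num

theorem form_succ (m : ℕ) (h : Form m) : Form (m + 1) := by
  obtain ⟨h00, h20, h40, h60, h11, h31, h02, h22, h42, h62⟩ := h
  refine ⟨?_, ?_, ?_, ?_, ?_, ?_, ?_, ?_, ?_, ?_⟩ <;>
  rw [PP_succ] <;>
  simp only [sum_range_succ, sum_range_zero, zero_add, ka_zero, ka_one, ka_two, e0, e1, e2, e3, e4,
    e5, e6, e7, e8, e9, e10, e11, e12, Nat.reduceAdd, Nat.reduceSub, Nat.sub_self, Nat.sub_zero,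
    Nat.choose_self, Nat.choose_zero_right, Nat.choose_one_right, c62, c63, c64, c65, c42, c43,
    c32, h00, h20, h40, h60, h11, h31, h02, h22, h42, h62] <;>
  push_cast <;>
  ring

theorem form (m : ℕ) : Form m := by
  induction m with
  | zero => exact form_zero
  | succ m ih => exact form_succ m ih

theorem fm : T_FM := by
  refine ⟨2000, fun m hm => ?_⟩
  obtain ⟨h00, h20, h40, h60, h11, h31, h02, h22, h42, h62⟩ := form m
  rw [PP_eq _ _ _ (by norm_num)] at h20 h40 h60 h02 h22 h42 h62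
  have g20 : (RW (ball (Fin m) 1) 2 0 : ℝ) = 1 + 2 * m := by exact_mod_cast h20
  have g40 : (RW (ball (Fin m) 1) 4 0 : ℝ) = 1 + 6 * m + 12 * m ^ 2 := by exact_mod_cast h40
  have g60 : (RW (ball (Fin m) 1) 6 0 : ℝ) = 1 + 20 * m + 120 * m ^ 3 := by exact_mod_cast h60
  have g02 : (RW (ball (Fin m) 1) 0 2 : ℝ) = 1 + 2 * m := by exact_mod_cast h02
  have g22 : (RW (ball (Fin m) 1) 2 2 : ℝ) = 1 + 4 * m + 4 * m ^ 2 := by exact_mod_cast h22
  have g42 : (RW (ball (Fin m) 1) 4 2 : ℝ) = 1 + 24 * m + 24 * m ^ 2 + 24 * m ^ 3 := by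
    exact_mod_cast h42
  have g62 : (RW (ball (Fin m) 1) 6 2 : ℝ) =
      1 - 336 * m + 600 * m ^ 2 + 120 * m ^ 3 + 240 * m ^ 4 := by exact_mod_cast h62
  have hm1 : (1 : ℝ) ≤ m := by exact_mod_cast hm
  rw [g20, g40, g60, g02, g22, g42, g62]
  have hm2 : (m : ℝ) ≤ m ^ 2 := by nlinarith
  have hm3 : (m : ℝ) ^ 2 ≤ m ^ 3 := by nlinarith [sq_nonneg (m : ℝ)]
  refine ⟨?_, ?_, ?_, ?_, ?_, ?_, ?_⟩ <;> rw [abs_le] <;> constructor <;> nlinarith

end

end Pool.Agent.H33.GB.FM
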