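import Pool.Agent.H23.GB.Targets
import Pool.Agent.H81.GW.SU

/-!
# MO: moments of character sums
-/

set_option autoImplicit false

open Finset
open scoped Classical

namespace Pool.Agent.H33.GB.MO

open Pool.Agent.H23.GW Pool.Agent.H23.GB

theorem map_sum_prod {G ι : Type} [AddCommGroup G] (χ : AddChar G ℂ) (s : Finset ι) (f : ι → G) :
    χ (∑ i ∈ s, f i) = ∏ i ∈ s, χ (f i) := by
  induction s using Finset.induction_on with
  | empty => simp
  | insert a s ha ih =>
    rw [Finset.sum_insert ha, Finset.prod_insert ha, AddChar.map_add_eq_mul, ih]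

theorem V_pow {G : Type} [AddCommGroup G] [Fintype G] (T : Finset G) (χ : AddChar G ℂ) (a : ℕ) :
    V T χ ^ a = ∑ q ∈ Fintype.piFinset (fun _ : Fin a => T), χ (∑ i, q i) := by
  rw [V, ← Fin.prod_const, Finset.prod_univ_sum]
  refine Finset.sum_congr rfl fun q _ => ?_
  rw [map_sum_prod]

theorem mo : T_MO := by
  intro G _ _ T hT
  have him := Pool.Agent.H81.GW.V_im T hT
  refine ⟨him, fun a b => ?_⟩
  have hre : ∀ χ : AddChar G ℂ, ((v T χ : ℝ) : ℂ) = V T χ := fun χ =>
    Complex.ext (by simp [v]) (by simp [him χ])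
  have h : ((∑ χ : AddChar G ℂ, v T χ ^ a * v T (3 • χ) ^ b : ℝ) : ℂ) =
      (((Fintype.card G : ℝ) * RW T a b : ℝ) : ℂ) := by
    rw [Complex.ofReal_sum]
    have h1 : ∀ χ : AddChar G ℂ, ((v T χ ^ a * v T (3 • χ) ^ b : ℝ) : ℂ) =
        ∑ q ∈ (Fintype.piFinset fun _ : Fin a => T) ×ˢ (Fintype.piFinset fun _ : Fin b => T),
          χ (∑ i, q.1 i + 3 • ∑ j, q.2 j) := by
      intro χ
      rw [Complex.ofReal_mul, Complex.ofReal_pow, Complex.ofReal_pow, hre, hre, V_pow, V_pow,
        Finset.sum_mul_sum, ← Finset.sum_product']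
      refine Finset.sum_congr rfl fun q _ => ?_
      rw [AddChar.map_add_eq_mul, AddChar.nsmul_apply, AddChar.map_nsmul_eq_pow]
    rw [Finset.sum_congr rfl (fun χ _ => h1 χ), Finset.sum_comm]
    have h2 : ∀ q : (Fin a → G) × (Fin b → G),
        ∑ χ : AddChar G ℂ, χ (∑ i, q.1 i + 3 • ∑ j, q.2 j) =
        if ∑ i, q.1 i + 3 • ∑ j, q.2 j = 0 then (Fintype.card G : ℂ) else 0 := by
      intro q
      exact AddChar.sum_apply_eq_ite _
    rw [Finset.sum_congr rfl (fun q _ => h2 q), ← Finset.sum_filter, Finset.sum_const,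
      nsmul_eq_mul, RW]
    push_cast
    ring
  exact_mod_cast h

end Pool.Agent.H33.GB.MO
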